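import Mathlib
import Pool.Agent.K7.H36.Sq.Gen

/-!
The characterisation of generically globally rigid squares asked about in Q1 fails as soon as
vertices of degree one are allowed: attaching a pendant vertex to a vertex of degree at least three
keeps generic global rigidity and 4-connectivity of the square, but destroys even
6-tree-connectivity of five parallel copies of the graph.
-/

namespace Pool.Agent.Results.MP_f1f412_co.PendantCounterexamples

/-- the square of a simple graph: join two distinct vertices at distance at most two -/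
def square {V : Type} (G : SimpleGraph V) : SimpleGraph V where
  Adj u v := u ≠ v ∧ (G.Adj u v ∨ ∃ w, G.Adj u w ∧ G.Adj w v)
  symm := ⟨fun u v h => ⟨h.1.symm, by
    rcases h.2 with h2 | ⟨w, h2, h3⟩
    · exact Or.inl h2.symm
    · exact Or.inr ⟨w, h3.symm, h2.symm⟩⟩⟩
  loopless := ⟨fun u h => h.1 rfl⟩

/-- no cycle of length three or four -/
def NoShortCycle {V : Type} (G : SimpleGraph V) : Prop :=
  (∀ a b c, G.Adj a b → G.Adj b c → G.Adj c a → False) ∧
  (∀ a b c d, a ≠ c → b ≠ d → G.Adj a b → G.Adj b c → G.Adj c d → G.Adj d a → False)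

/-- Euclidean three-space -/
abbrev E3 := EuclideanSpace ℝ (Fin 3)

/-- all coordinates are algebraically independent over the rationals -/
def Generic {V : Type} (p : V → E3) : Prop :=
  AlgebraicIndependent ℚ (fun x : V × Fin 3 => p x.1 x.2)

/-- the framework (H, p) is globally rigid -/
def GloballyRigid {V : Type} (H : SimpleGraph V) (p : V → E3) : Prop :=
  ∀ q : V → E3, (∀ u v, H.Adj u v → dist (q u) (q v) = dist (p u) (p v)) →
    ∀ u v, dist (q u) (q v) = dist (p u) (p v)

/-- deleting any three vertices leaves a connected graph -/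
def FourConnected {V : Type} (H : SimpleGraph V) : Prop :=
  ∀ S : Finset V, S.card ≤ 3 → (H.induce ((S : Set V)ᶜ)).Connected

/-- T is the edge set of a spanning tree of the multigraph with m parallel copies of each edge
of G -/
def IsSpanningTree {V : Type} {G : SimpleGraph V} {m : ℕ} (T : Set (G.edgeSet × Fin m)) : Prop :=
  Set.InjOn (fun e : G.edgeSet × Fin m => (e.1 : Sym2 V)) T ∧
  (SimpleGraph.fromEdgeSet ((fun e : G.edgeSet × Fin m => (e.1 : Sym2 V)) '' T)).IsTree

/-- the multigraph with m parallel copies of each edge of G contains k edge-disjoint spanning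
trees -/
def TreeConnected {V : Type} (G : SimpleGraph V) (m k : ℕ) : Prop :=
  ∃ T : Fin k → Set (G.edgeSet × Fin m), (∀ i j, i ≠ j → Disjoint (T i) (T j)) ∧
    ∀ i, IsSpanningTree (T i)

/-- deleting any single edge of the multigraph with m parallel copies of each edge of G leaves k
edge-disjoint spanning trees -/
def HighlyTreeConnected {V : Type} (G : SimpleGraph V) (m k : ℕ) : Prop :=
  ∀ e : G.edgeSet × Fin m, ∃ T : Fin k → Set (G.edgeSet × Fin m),
    (∀ i j, i ≠ j → Disjoint (T i) (T j)) ∧ ∀ i, e ∉ T i ∧ IsSpanningTree (T i)

/-- attach one new vertex, joined to u only -/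
def pendant {V : Type} (G : SimpleGraph V) (u : V) : SimpleGraph (Option V) where
  Adj x y := match x, y with
    | some a, some b => G.Adj a b
    | none, some b => b = u
    | some a, none => a = u
    | none, none => False
  symm := ⟨by
    rintro (_ | a) (_ | b) h
    · exact h
    · exact h
    · exact h
    · exact h.symm⟩
  loopless := ⟨by
    rintro (_ | a) h
    · exact h
    · exact G.loopless.irrefl a h⟩

section
variable {V : Type} {G : SimpleGraph V} {u : V}

@[simp] theorem pendant_ss {a b : V} : (pendant G u).Adj (some a) (some b) ↔ G.Adj a b := Iff.rfl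
@[simp] theorem pendant_ns {b : V} : (pendant G u).Adj none (some b) ↔ b = u := Iff.rfl
@[simp] theorem pendant_sn {a : V} : (pendant G u).Adj (some a) none ↔ a = u := Iff.rfl
@[simp] theorem pendant_nn : (pendant G u).Adj none none ↔ False := Iff.rfl

theorem pendant_noShort (h : NoShortCycle G) : NoShortCycle (pendant G u) := by
  refine ⟨?_, ?_⟩
  · rintro (_ | a) (_ | b) (_ | c) h1 h2 h3
    all_goals simp at h1 h2 h3
    · subst h1; subst h3; exact G.loopless.irrefl _ h2
    · subst h1; subst h2; exact G.loopless.irrefl _ h3
    · subst h2; subst h3; exact G.loopless.irrefl _ h1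
    · exact h.1 a b c h1 h2 h3
  · rintro (_ | a) (_ | b) (_ | c) (_ | d) hac hbd h1 h2 h3 h4
    all_goals simp at hac hbd h1 h2 h3 h4
    · exact hbd (h1.trans h4.symm)
    · exact hac (h1.trans h2.symm)
    · exact hbd (h2.trans h3.symm)
    · exact hac (h4.trans h3.symm)
    · exact h.2 a b c d hac hbd h1 h2 h3 h4

theorem square_pendant_ss {a b : V} :
    (square (pendant G u)).Adj (some a) (some b) ↔ (square G).Adj a b := by
  constructor
  · rintro ⟨h1, h2⟩
    refine ⟨fun h => h1 (by rw [h]), ?_⟩
    rcases h2 with h2 | ⟨(_ | w), h2, h3⟩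
    · exact Or.inl h2
    · simp at h2 h3
      exact absurd (by rw [h2, h3]) h1
    · exact Or.inr ⟨w, h2, h3⟩
  · rintro ⟨h1, h2⟩
    refine ⟨fun h => h1 (Option.some.inj h), ?_⟩
    rcases h2 with h2 | ⟨w, h2, h3⟩
    · exact Or.inl h2
    · exact Or.inr ⟨some w, h2, h3⟩

theorem square_pendant_ns {a : V} :
    (square (pendant G u)).Adj none (some a) ↔ a = u ∨ G.Adj u a := by
  constructor
  · rintro ⟨_, h2⟩
    rcases h2 with h2 | ⟨(_ | w), h2, h3⟩
    · exact Or.inl h2
    · exact absurd h2 (by simp)
    · simp at h2 h3
      subst h2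
      exact Or.inr h3
  · rintro (rfl | h)
    · exact ⟨by simp, Or.inl (by simp)⟩
    · exact ⟨by simp, Or.inr ⟨some u, by simp, h⟩⟩

end

/-- a vertex of degree one rules out six edge-disjoint spanning trees in five copies of G -/
theorem leaf_not_tree {V : Type} {G : SimpleGraph V} {v u : V} (hv : ∀ w, G.Adj v w → w = u)
    (hu : v ≠ u) : ¬ TreeConnected G 5 6 := by
  rintro ⟨T, hd, hT⟩
  have h1 : ∀ i : Fin 6, ∃ c : Fin 5, ∃ h : s(v, u) ∈ G.edgeSet, ((⟨s(v, u), h⟩ : G.edgeSet), c) ∈ T i := by
    intro i
    have hconn := (hT i).2.1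
    obtain ⟨w⟩ := hconn.preconnected v u
    cases w with
    | nil => exact absurd rfl hu
    | @cons _ b _ hadj w' =>
      rw [SimpleGraph.fromEdgeSet_adj] at hadj
      obtain ⟨⟨e, c⟩, he, he2⟩ := hadj.1
      simp only at he2
      have h3 : G.Adj v b := by
        rw [← SimpleGraph.mem_edgeSet, ← he2]
        exact e.2
      have h4 := hv b h3
      subst h4
      refine ⟨c, h3, ?_⟩
      have h5 : (⟨s(v, b), h3⟩ : G.edgeSet) = e := Subtype.ext he2.symm
      rw [h5]
      exact he
  choose c h hc using h1
  have hinj : Function.Injective c := by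
    intro i j hij
    by_contra hne
    have h2 := hd i j hne
    rw [Set.disjoint_left] at h2
    apply h2 (hc i)
    have h3 := hc j
    rw [← hij] at h3
    exact h3
  have := Fintype.card_le_of_injective c hinj
  simp at this

theorem pendant_not_tree {V : Type} {G : SimpleGraph V} {u : V} :
    ¬ TreeConnected (pendant G u) 5 6 := by
  refine leaf_not_tree (v := none) (u := some u) ?_ (by simp)
  rintro (_ | w) h
  · exact absurd h (by simp)
  · rw [pendant_ns] at h
    rw [h]

/-- highly tree-connected graphs are tree-connected, as soon as there is an edge -/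
theorem not_highly {V : Type} {G : SimpleGraph V} (h : ¬ TreeConnected G 5 6) {a b : V}
    (hab : G.Adj a b) : ¬ HighlyTreeConnected G 5 6 := by
  intro h2
  obtain ⟨T, h3, h4⟩ := h2 (⟨s(a, b), hab⟩, 0)
  exact h ⟨T, h3, fun i => (h4 i).2⟩

/-- attaching a pendant vertex at a vertex of degree at least three keeps global rigidity of the
square, for every generic configuration -/
theorem pendant_rigid {V : Type} {G : SimpleGraph V} {u : V} {a : Fin 3 → V}
    (ha : Function.Injective a) (hau : ∀ i, G.Adj u (a i))
    (hG : ∀ p : V → E3, Generic p → GloballyRigid (square G) p) :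
    ∀ p : Option V → E3, Generic p → GloballyRigid (square (pendant G u)) p := by
  intro p hp q hq
  have hp' : Generic (fun v : V => p (some v)) := by
    have := AlgebraicIndependent.comp hp (fun x : V × Fin 3 => (some x.1, x.2)) (by
      rintro ⟨x, i⟩ ⟨y, j⟩ h
      simpa using h)
    exact this
  have hV : ∀ x y : V, dist (q (some x)) (q (some y)) = dist (p (some x)) (p (some y)) := by
    refine hG (fun v => p (some v)) hp' (fun v => q (some v)) ?_
    intro x y hxy
    exact hq _ _ (square_pendant_ss.mpr hxy)
  have hn : ∀ x : V, (x = u ∨ G.Adj u x) → dist (q none) (q (some x)) = dist (p none) (p (some x)) :=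
    fun x hx => hq _ _ (square_pendant_ns.mpr hx)
  have key : ∀ w : V, dist (q none) (q (some w)) = dist (p none) (p (some w)) := by
    intro w
    obtain ⟨c, hc⟩ := K7.H36.Sq.span_generic (p := fun v : V => p (some v)) hp' u a ha (fun i => (hau i).ne') (p (some w))
    have h1 : ∀ i j : Fin 3, inner ℝ (q (some (a i)) - q (some u)) (q (some (a j)) - q (some u)) =
        inner ℝ (p (some (a i)) - p (some u)) (p (some (a j)) - p (some u)) := by
      intro i j
      rw [K7.H36.Sq.inner_diff, K7.H36.Sq.inner_diff, hV, hV, hV]
    have h2 : ∀ i : Fin 3, inner ℝ (q (some w) - q (some u)) (q (some (a i)) - q (some u)) =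
        inner ℝ (p (some w) - p (some u)) (p (some (a i)) - p (some u)) := by
      intro i
      rw [K7.H36.Sq.inner_diff, K7.H36.Sq.inner_diff, hV, hV, hV]
    have h3 : ∀ i : Fin 3, inner ℝ (q none - q (some u)) (q (some (a i)) - q (some u)) =
        inner ℝ (p none - p (some u)) (p (some (a i)) - p (some u)) := by
      intro i
      rw [K7.H36.Sq.inner_diff, K7.H36.Sq.inner_diff, hV, hn u (Or.inl rfl),
        hn (a i) (Or.inr (hau i))]
    exact K7.H36.Sq.dist_ext (e := fun i => p (some (a i))) (f := fun i => q (some (a i)))
      (v := p none) (w := p (some w)) (z := p (some u)) (v' := q none) (w' := q (some w))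
      (z' := q (some u)) c h1 h2 (hV w u) h3 (hn u (Or.inl rfl)) hc
  rintro (_ | x) (_ | y)
  · simp
  · exact key y
  · rw [dist_comm, key x, dist_comm]
  · exact hV x y

/-- attaching a pendant vertex at a vertex of degree at least three keeps 4-connectivity of the
square -/
theorem pendant_conn {V : Type} {G : SimpleGraph V} {u : V} {a : Fin 3 → V}
    (ha : Function.Injective a) (hau : ∀ i, G.Adj u (a i))
    (hG : FourConnected (square G)) : FourConnected (square (pendant G u)) := by
  classical
  intro S hS
  let S' : Finset V := S.preimage some (Function.Injective.injOn (Option.some_injective V))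
  have hS' : S'.card ≤ 3 := by
    have h1 : (S'.image some).card ≤ S.card := Finset.card_le_card (by
      intro x hx
      simp only [S', Finset.mem_image, Finset.mem_preimage] at hx
      obtain ⟨y, hy, rfl⟩ := hx
      exact hy)
    rw [Finset.card_image_of_injective _ (Option.some_injective V)] at h1
    omega
  have hc := hG S' hS'
  have hmem : ∀ x : V, x ∈ ((S' : Set V)ᶜ) ↔ some x ∈ ((S : Set (Option V))ᶜ) := by
    intro x
    simp [S']
  let φ : (square G).induce ((S' : Set V)ᶜ) →g (square (pendant G u)).induce ((S : Set (Option V))ᶜ) :=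
    { toFun := fun x => ⟨some x.1, (hmem _).mp x.2⟩
      map_rel' := by
        intro x y h
        exact square_pendant_ss.mpr h }
  have hreach : ∀ x y : V, ∀ (hx : some x ∈ ((S : Set (Option V))ᶜ)) (hy : some y ∈ ((S : Set (Option V))ᶜ)),
      ((square (pendant G u)).induce ((S : Set (Option V))ᶜ)).Reachable ⟨some x, hx⟩ ⟨some y, hy⟩ := by
    intro x y hx hy
    have := (hc.preconnected ⟨x, (hmem x).mpr hx⟩ ⟨y, (hmem y).mpr hy⟩).map φ
    exact this
  obtain ⟨⟨x0, hx0⟩⟩ := hc.nonempty
  have hx0' := (hmem x0).mp hx0
  -- the new vertex has a neighbour outside S, if it is itself outside S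
  have hnone : ∀ hn : (none : Option V) ∈ ((S : Set (Option V))ᶜ),
      ((square (pendant G u)).induce ((S : Set (Option V))ᶜ)).Reachable ⟨none, hn⟩ ⟨some x0, hx0'⟩ := by
    intro hn
    have hex : ∃ b : V, (b = u ∨ G.Adj u b) ∧ some b ∉ S := by
      by_contra hcon
      push Not at hcon
      let g : Fin 4 → Option V := Fin.cons (some u) (fun i => some (a i))
      have hg : Function.Injective g := by
        rw [Fin.cons_injective_iff]
        refine ⟨?_, fun i j h => ha (Option.some.inj h)⟩
        rintro ⟨i, hi⟩
        exact (hau i).ne' (Option.some.inj hi)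
      have hgS : ∀ i, g i ∈ S := by
        intro i
        refine Fin.cases ?_ (fun j => ?_) i
        · exact hcon u (Or.inl rfl)
        · exact hcon (a j) (Or.inr (hau j))
      have h2 : (Finset.univ.image g).card ≤ S.card := Finset.card_le_card (by
        intro x hx
        simp only [Finset.mem_image, Finset.mem_univ, true_and] at hx
        obtain ⟨i, rfl⟩ := hx
        exact hgS i)
      rw [Finset.card_image_of_injective _ hg] at h2
      simp at h2
      omega
    obtain ⟨b, hb, hbS⟩ := hex
    have hbS' : some b ∈ ((S : Set (Option V))ᶜ) := by simpa using hbS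
    refine SimpleGraph.Reachable.trans ?_ (hreach b x0 hbS' hx0')
    apply SimpleGraph.Adj.reachable
    exact square_pendant_ns.mpr hb
  have : Nonempty ((S : Set (Option V))ᶜ : Set (Option V)) := ⟨⟨some x0, hx0'⟩⟩
  refine SimpleGraph.Connected.mk ?_
  have hall : ∀ z : ((S : Set (Option V))ᶜ : Set (Option V)),
      ((square (pendant G u)).induce ((S : Set (Option V))ᶜ)).Reachable z ⟨some x0, hx0'⟩ := by
    rintro ⟨(_ | z), hz⟩
    · exact hnone hz
    · exact hreach z x0 hz hx0'
  exact fun x y => (hall x).trans (hall y).symm


theorem pendant_connected {V : Type} {G : SimpleGraph V} {u : V} (hG : G.Connected) :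
    (pendant G u).Connected := by
  have : Nonempty (Option V) := ⟨none⟩
  refine SimpleGraph.Connected.mk ?_
  let φ : G →g pendant G u := { toFun := some, map_rel' := fun {x y} h => h }
  have h1 : ∀ x y : V, (pendant G u).Reachable (some x) (some y) := fun x y =>
    (hG.preconnected x y).map φ
  have h2 : ∀ z : Option V, (pendant G u).Reachable z (some u) := by
    rintro (_ | z)
    · exact SimpleGraph.Adj.reachable (by simp)
    · exact h1 z u
  exact fun x y => (h2 x).trans (h2 y).symm

theorem pendant_square_ne_top {V : Type} {G : SimpleGraph V} {u : V}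
    (hG : square G ≠ ⊤) : square (pendant G u) ≠ ⊤ := by
  intro h
  apply hG
  ext x y
  rw [← square_pendant_ss (u := u), h]
  simp

/-- a complete graph is globally rigid -/
theorem top_rigid {V : Type} {G : SimpleGraph V} (h : square G = ⊤) (p : V → E3) :
    GloballyRigid (square G) p := by
  intro q hq u v
  by_cases huv : u = v
  · subst huv; simp
  · exact hq u v (by rw [h]; exact huv)

theorem top_conn {V : Type} [Fintype V] {G : SimpleGraph V} (h : square G = ⊤)
    (hV : 4 ≤ Fintype.card V) : FourConnected (square G) := by
  classical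
  intro S hS
  rw [h]
  have hne : ∃ x : V, x ∉ S := by
    by_contra hcon
    push Not at hcon
    have : Finset.univ ⊆ S := fun x _ => hcon x
    have h2 := Finset.card_le_card this
    rw [Finset.card_univ] at h2
    omega
  obtain ⟨x, hx⟩ := hne
  have : Nonempty ((S : Set V)ᶜ : Set V) := ⟨⟨x, by simpa using hx⟩⟩
  refine SimpleGraph.Connected.mk ?_
  intro y z
  by_cases hyz : y = z
  · rw [hyz]
  · apply SimpleGraph.Adj.reachable
    intro h2
    exact hyz (Subtype.ext h2)

/-- the Petersen graph on two copies of the integers modulo five -/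
def petersen : SimpleGraph (Bool × ZMod 5) where
  Adj x y := (x.1 = false ∧ y.1 = false ∧ (x.2 = y.2 + 1 ∨ y.2 = x.2 + 1)) ∨
    (x.1 = true ∧ y.1 = true ∧ (x.2 = y.2 + 2 ∨ y.2 = x.2 + 2)) ∨ (x.1 ≠ y.1 ∧ x.2 = y.2)
  symm := ⟨by decide⟩
  loopless := ⟨by decide⟩

instance : DecidableRel petersen.Adj := fun x y => by unfold petersen; infer_instance

theorem petersen_noShort : NoShortCycle petersen := by
  constructor
  · intro a b c; revert a b c; decide
  · have h : ∀ a c : Bool × ZMod 5, a ≠ c →
        (Finset.univ.filter fun b => petersen.Adj a b ∧ petersen.Adj b c).card ≤ 1 := by decide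
    intro a b c d hac hbd h1 h2 h3 h4
    have h5 := h a c hac
    rw [Finset.card_le_one] at h5
    exact hbd (h5 b (by simp [h1, h2]) d (by simp [h3.symm, h4.symm]))

theorem petersen_square : square petersen = ⊤ := by
  ext x y
  simp only [SimpleGraph.top_adj, square]
  revert x y
  decide


/-- the star with center none and leaves Fin n -/
def star (n : ℕ) : SimpleGraph (Option (Fin n)) where
  Adj x y := (x = none ∧ y ≠ none) ∨ (x ≠ none ∧ y = none)
  symm := ⟨fun x y h => by tauto⟩
  loopless := ⟨fun x h => by tauto⟩

theorem star_noShort (n : ℕ) : NoShortCycle (star n) := by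
  constructor
  · rintro (_ | a) (_ | b) (_ | c) h1 h2 h3 <;> simp [star] at h1 h2 h3
  · rintro (_ | a) (_ | b) (_ | c) (_ | d) hac hbd h1 h2 h3 h4 <;>
      simp [star] at hac hbd h1 h2 h3 h4

theorem star_square {n : ℕ} (_hn : 0 < n) : square (star n) = ⊤ := by
  ext x y
  simp only [SimpleGraph.top_adj, square]
  constructor
  · exact fun h => h.1
  · intro h
    refine ⟨h, ?_⟩
    rcases x with _ | x <;> rcases y with _ | y
    · exact absurd rfl h
    · exact Or.inl (by simp [star])
    · exact Or.inl (by simp [star])
    · exact Or.inr ⟨none, by simp [star], by simp [star]⟩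

theorem star_connected {n : ℕ} : (star n).Connected := by
  have h2 : ∀ z : Option (Fin n), (star n).Reachable z none := by
    rintro (_ | z)
    · exact SimpleGraph.Reachable.refl _
    · exact SimpleGraph.Adj.reachable (by simp [star])
  exact SimpleGraph.Connected.mk fun x y => (h2 x).trans (h2 y).symm

/-- everything we want from a counterexample on N vertices -/
structure Bad (V : Type) (G : SimpleGraph V) : Prop where
  conn : G.Connected
  short : NoShortCycle G
  rigid : ∀ p : V → E3, Generic p → GloballyRigid (square G) p
  four : FourConnected (square G)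
  tree : ¬ TreeConnected G 5 6

theorem bad_star {n : ℕ} (hn : 4 ≤ n) : Bad _ (star n) where
  conn := star_connected
  short := star_noShort n
  rigid := fun p _ => top_rigid (star_square (by omega)) p
  four := top_conn (star_square (by omega)) (by simp; omega)
  tree := by
    refine leaf_not_tree (v := some ⟨0, by omega⟩) (u := none) ?_ (by simp)
    rintro (_ | w) h
    · rfl
    · simp [star] at h

theorem pet_conn : petersen.Connected := by
  have h2 : ∀ z : Bool × ZMod 5, petersen.Reachable z (false, 0) := by
    intro z
    by_cases hz : z = (false, 0)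
    · rw [hz]
    · have h3 : (square petersen).Adj z (false, 0) := by rw [petersen_square]; exact hz
      rcases h3.2 with h4 | ⟨w, h4, h5⟩
      · exact h4.reachable
      · exact h4.reachable.trans h5.reachable
  exact SimpleGraph.Connected.mk fun x y => (h2 x).trans (h2 y).symm

/-- Petersen graph with k + 1 pendant vertices at one vertex -/
theorem bad_petersen (k : ℕ) : ∃ (V : Type) (_ : Fintype V) (G : SimpleGraph V),
    Fintype.card V = 11 + k ∧ Bad V G ∧ square G ≠ ⊤ ∧
    ∃ (u : V) (a : Fin 3 → V), Function.Injective a ∧ ∀ i, G.Adj u (a i) := by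
  induction k with
  | zero =>
    let a : Fin 3 → Bool × ZMod 5 := ![(false, 1), (false, 4), (true, 0)]
    have ha : Function.Injective a := by decide
    have hau : ∀ i, petersen.Adj (false, 0) (a i) := by decide
    refine ⟨Option (Bool × ZMod 5), inferInstance, pendant petersen (false, 0), ?_, ⟨?_, ?_, ?_, ?_, ?_⟩,
      ?_, some (false, 0), fun i => some (a i), ?_, ?_⟩
    · rw [Fintype.card_option]; rfl
    · exact pendant_connected pet_conn
    · exact pendant_noShort petersen_noShort
    · exact pendant_rigid ha hau fun p _ => top_rigid petersen_square p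
    · exact pendant_conn ha hau (top_conn petersen_square (by decide))
    · exact pendant_not_tree
    · intro h
      have h2 : (square (pendant petersen (false, 0))).Adj none (some (false, 2)) := by
        rw [h]; simp
      rw [square_pendant_ns] at h2
      revert h2
      decide
    · exact fun i j h => ha (Option.some.inj h)
    · exact hau
  | succ k ih =>
    obtain ⟨V, _, G, hc, hB, hs, u, a, ha, hau⟩ := ih
    refine ⟨Option V, inferInstance, pendant G u, ?_, ⟨?_, ?_, ?_, ?_, ?_⟩, ?_, some u,
      fun i => some (a i), ?_, ?_⟩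
    · rw [Fintype.card_option, hc]; ring
    · exact pendant_connected hB.conn
    · exact pendant_noShort hB.short
    · exact pendant_rigid ha hau hB.rigid
    · exact pendant_conn ha hau hB.four
    · exact pendant_not_tree
    · exact pendant_square_ne_top hs
    · exact fun i j h => ha (Option.some.inj h)
    · exact hau

theorem exists_generic (V : Type) [Finite V] : ∃ p : V → E3, Generic p := by
  obtain ⟨x, hx⟩ := K7.H36.Sq.exists_algInd (V × Fin 3)
  refine ⟨fun v => WithLp.toLp 2 fun i => x (v, i), ?_⟩
  exact hx

/-- For every N ≥ 5 there is a connected graph G on N vertices without cycles of length three or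
four such that the square of G is 4-connected and globally rigid in three-space for every generic
configuration (and generic configurations exist), while five parallel copies of G do not even
contain six edge-disjoint spanning trees; for N ≥ 11 such a G exists whose square is not complete.
In particular the characterisation asked about in Q1 is false. -/
theorem result :
    (∀ N : ℕ, 5 ≤ N → ∃ (V : Type) (_ : Fintype V) (G : SimpleGraph V), Fintype.card V = N ∧
      G.Connected ∧ NoShortCycle G ∧ (11 ≤ N → square G ≠ ⊤) ∧ FourConnected (square G) ∧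
      (∃ p : V → E3, Generic p) ∧ (∀ p : V → E3, Generic p → GloballyRigid (square G) p) ∧
      ¬ TreeConnected G 5 6 ∧ ¬ HighlyTreeConnected G 5 6) ∧
    ¬ (∀ (V : Type) (_ : Fintype V) (G : SimpleGraph V), 5 ≤ Fintype.card V → NoShortCycle G →
      ((∃ p : V → E3, Generic p ∧ GloballyRigid (square G) p) ↔
        (FourConnected (square G) ∧ HighlyTreeConnected G 5 6))) := by
  have key : ∀ N : ℕ, 5 ≤ N → ∃ (V : Type) (_ : Fintype V) (G : SimpleGraph V),
      Fintype.card V = N ∧ Bad V G ∧ (11 ≤ N → square G ≠ ⊤) := by
    intro N hN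
    by_cases h : 11 ≤ N
    · obtain ⟨V, _, G, hc, hB, hs, -⟩ := bad_petersen (N - 11)
      exact ⟨V, inferInstance, G, by omega, hB, fun _ => hs⟩
    · refine ⟨Option (Fin (N - 1)), inferInstance, star (N - 1), ?_, bad_star (by omega), fun h2 => absurd h2 h⟩
      simp; omega
  have hnot : ∀ (V : Type) (_ : Fintype V) (G : SimpleGraph V), 5 ≤ Fintype.card V → Bad V G →
      ¬ HighlyTreeConnected G 5 6 := by
    intro V _ G hV hB
    obtain ⟨x⟩ := hB.conn.nonempty
    have : Nontrivial V := Fintype.one_lt_card_iff_nontrivial.mp (by omega)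
    obtain ⟨y, hy⟩ := hB.conn.preconnected.exists_adj_of_nontrivial x
    exact not_highly hB.tree hy
  constructor
  · intro N hN
    obtain ⟨V, hV, G, hc, hB, hs⟩ := key N hN
    exact ⟨V, hV, G, hc, hB.conn, hB.short, hs, hB.four, exists_generic V, hB.rigid, hB.tree,
      hnot V hV G (by omega) hB⟩
  · intro hall
    obtain ⟨V, hV, G, hc, hB, hs⟩ := key 5 le_rfl
    obtain ⟨p, hp⟩ := exists_generic V
    exact hnot V hV G (by omega) hB ((hall V hV G (by omega) hB.short).mp ⟨p, hp, hB.rigid p hp⟩).2

end Pool.Agent.Results.MP_f1f412_co.PendantCounterexamples
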